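import Pool.Agent.H1.AsyA

namespace Pool.Agent.Results.MP_f651fd_an.NoCompact

open scoped ComplexOrder

variable {H : Type} [NormedAddCommGroup H] [InnerProductSpace ℂ H] [CompleteSpace H]

/-- a Banach limit: a positive, shift invariant, normalised linear functional on `ℓ^∞(ℕ)` -/
def IsBanachLimit (L : BoundedContinuousFunction ℕ ℂ →ₗ[ℂ] ℂ) : Prop :=
  (∀ s : BoundedContinuousFunction ℕ ℂ, (∀ n, 0 ≤ s n) → 0 ≤ L s) ∧ L 1 = 1 ∧
    ∀ s s' : BoundedContinuousFunction ℕ ℂ, (∀ n, s' n = s (n + 1)) → L s' = L s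

/-- `T` is power bounded -/
def PowerBounded (T : H →L[ℂ] H) : Prop := ∃ M : ℝ, ∀ n : ℕ, ‖T ^ n‖ ≤ M

/-- `A` is the `L`-asymptotic limit of `T`: `⟨A x, y⟩ = L (⟨T ^ n x, T ^ n y⟩)` -/
def IsAsymptoticLimit (L : BoundedContinuousFunction ℕ ℂ →ₗ[ℂ] ℂ) (T A : H →L[ℂ] H) : Prop :=
  ∀ (x y : H) (s : BoundedContinuousFunction ℕ ℂ),
    (∀ n : ℕ, s n = inner ℂ ((T ^ n) y) ((T ^ n) x)) → inner ℂ y (A x) = L s

theorem result (hH : ¬FiniteDimensional ℂ H) (L : BoundedContinuousFunction ℕ ℂ →ₗ[ℂ] ℂ)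
    (hL : IsBanachLimit L) (A : H →L[ℂ] H) (hp : A.IsPositive) (hi : Function.Injective A)
    (hc : IsCompactOperator A) : ¬∃ T : H →L[ℂ] H, PowerBounded T ∧ IsAsymptoticLimit L T A :=
  fun ⟨_, ⟨_, hM⟩, hA⟩ => Pool.Agent.H1.Asy.not_compact hH hM hL.1 hL.2.1 hL.2.2 hA hp hi hc

end Pool.Agent.Results.MP_f651fd_an.NoCompact
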